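import Mathlib
import Pool.Agent.Helper24.GR.Defs
import Pool.Agent.Helper24.GR.Basic

set_option autoImplicit false

/-! GR-2a, GR-2b: a two-way infinite walk contains a generalized cycle; generalized cycles are
balanced. -/

namespace Pool.Agent.Helper24.GR

open Function Order

universe u v

variable {V : Type u} {E : Type v}

/-- GR-2a. A two-way infinite walk contains a generalized cycle. -/
theorem exists_genCyc_of_walk (D : Dig V E) (x : ℤ → V) (a : ℤ → E)
    (h : ∀ i, D.src (a i) = x i ∧ D.tgt (a i) = x (i + 1)) :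
    ∃ C ⊆ Set.range a, GenCyc D C := by
  classical
  by_cases hx : Injective x
  · exact ⟨Set.range a, le_rfl, Or.inr ⟨x, a, hx, h, rfl⟩⟩
  have hex : ∃ n : ℕ, 1 ≤ n ∧ ∃ i : ℤ, x i = x (i + n) := by
    unfold Injective at hx
    push Not at hx
    obtain ⟨i, j, hij, hne⟩ := hx
    rcases lt_or_gt_of_ne hne with hlt | hlt
    · refine ⟨(j - i).toNat, by omega, i, ?_⟩
      rw [hij]; congr 1; omega
    · refine ⟨(i - j).toNat, by omega, j, ?_⟩
      rw [← hij]; congr 1; omega
  obtain ⟨hn1, i, hi⟩ := Nat.find_spec hex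
  have hmin : ∀ m < Nat.find hex, 1 ≤ m → ∀ j : ℤ, x j ≠ x (j + m) := by
    intro m hm hm1 j hj
    exact Nat.find_min hex hm ⟨hm1, j, hj⟩
  generalize Nat.find hex = n at hn1 hi hmin
  have hn2 : 2 ≤ n := by
    by_contra hcon
    have h1 : n = 1 := by omega
    subst h1
    apply D.noloop (a i)
    rw [(h i).1, (h i).2]
    exact_mod_cast hi
  have : NeZero n := ⟨by omega⟩
  refine ⟨Set.range (fun k : ZMod n => a (i + k.val)), ?_, Or.inl ⟨n, hn2,
    fun k => x (i + k.val), fun k => a (i + k.val), ?_, ?_, rfl⟩⟩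
  · rintro _ ⟨k, rfl⟩
    exact ⟨_, rfl⟩
  · have key : ∀ k l : ZMod n, x (i + k.val) = x (i + l.val) → ¬ k.val < l.val := by
      intro k l hkl hlt
      have hl := ZMod.val_lt l
      apply hmin (l.val - k.val) (by omega) (by omega) (i + k.val)
      rw [hkl]; congr 1; omega
    intro k l hkl
    apply ZMod.val_injective n
    have h1 := key k l hkl
    have h2 := key l k hkl.symm
    omega
  · intro k
    refine ⟨(h _).1, ?_⟩
    have h1 : (k + 1).val = (k.val + 1) % n := by
      rw [ZMod.val_add, ZMod.val_one'' (by omega)]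
    have hk := ZMod.val_lt k
    show D.tgt (a (i + k.val)) = x (i + (k + 1).val)
    rw [(h _).2, h1]
    by_cases hlt : k.val + 1 < n
    · rw [Nat.mod_eq_of_lt hlt]
      congr 1
      push_cast
      ring
    · have h2 : k.val + 1 = n := by omega
      rw [h2, Nat.mod_self]
      have h3 : i + (k.val : ℤ) + 1 = i + n := by omega
      rw [h3, ← hi]
      simp

theorem w_bal {ι : Type*} (σ : ι ≃ ι) (D : Dig V E) (x : ι → V) (a : ι → E) (hx : Injective x)
    (h : ∀ i, D.src (a i) = x i ∧ D.tgt (a i) = x (σ i)) : Bal D (Set.range a) := by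
  constructor
  · intro v
    by_cases hv : ∃ i, x i = v
    · obtain ⟨i, rfl⟩ := hv
      apply (Set.toFinite {a i, a (σ.symm i)}).subset
      rintro e ⟨⟨j, rfl⟩, hj | hj⟩
      · rw [(h j).1] at hj
        left; rw [hx hj]
      · rw [(h j).2] at hj
        right
        have := hx hj
        rw [Set.mem_singleton_iff, ← this, Equiv.symm_apply_apply]
    · push Not at hv
      convert Set.finite_empty
      ext e
      simp only [Set.mem_ofPred_eq, Set.mem_empty_iff_false, iff_false]
      rintro ⟨⟨j, rfl⟩, hj | hj⟩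
      · rw [(h j).1] at hj
        exact hv j hj
      · rw [(h j).2] at hj
        exact hv _ hj
  · intro v
    unfold imb
    by_cases hv : ∃ i, x i = v
    · obtain ⟨i, rfl⟩ := hv
      have h1 : {e | e ∈ Set.range a ∧ D.tgt e = x i} = {a (σ.symm i)} := by
        ext e
        constructor
        · rintro ⟨⟨j, rfl⟩, hj⟩
          rw [(h j).2] at hj
          have := hx hj
          rw [Set.mem_singleton_iff, ← this, Equiv.symm_apply_apply]
        · rintro rfl
          refine ⟨⟨_, rfl⟩, ?_⟩
          rw [(h _).2, Equiv.apply_symm_apply]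
      have h2 : {e | e ∈ Set.range a ∧ D.src e = x i} = {a i} := by
        ext e
        constructor
        · rintro ⟨⟨j, rfl⟩, hj⟩
          rw [(h j).1] at hj
          rw [Set.mem_singleton_iff, hx hj]
        · rintro rfl
          exact ⟨⟨_, rfl⟩, (h _).1⟩
      rw [h1, h2, Set.ncard_singleton, Set.ncard_singleton]
      simp
    · push Not at hv
      have h1 : {e | e ∈ Set.range a ∧ D.tgt e = v} = ∅ := by
        ext e
        simp only [Set.mem_ofPred_eq, Set.mem_empty_iff_false, iff_false]
        rintro ⟨⟨j, rfl⟩, hj⟩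
        rw [(h j).2] at hj
        exact hv _ hj
      have h2 : {e | e ∈ Set.range a ∧ D.src e = v} = ∅ := by
        ext e
        simp only [Set.mem_ofPred_eq, Set.mem_empty_iff_false, iff_false]
        rintro ⟨⟨j, rfl⟩, hj⟩
        rw [(h j).1] at hj
        exact hv _ hj
      rw [h1, h2]
      simp

/-- GR-2b. -/
theorem GenCyc.bal {D : Dig V E} {C : Set E} (h : GenCyc D C) : Bal D C := by
  rcases h with ⟨n, hn, x, a, hx, ha, rfl⟩ | ⟨x, a, hx, ha, rfl⟩
  · exact w_bal (Equiv.addRight (1 : ZMod n)) D x a hx ha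
  · exact w_bal (Equiv.addRight (1 : ℤ)) D x a hx ha

end Pool.Agent.Helper24.GR
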