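import Mathlib
import Pool.Agent.Helper24.GR.Defs
import Pool.Agent.Helper24.GR.Basic
import Pool.Agent.Helper87.GR.Walk

set_option autoImplicit false

/-! GR-2c, GR-2d: decomposition of balanced sets, finite pieces of locally finite sets. -/

namespace Pool.Agent.Helper24.GR

open Function Order

universe u v

variable {V : Type u} {E : Type v}

theorem dc_maxfam (D : Dig V E) (B : Set E) :
    ∃ FF : Set (Set E), FF.PairwiseDisjoint id ∧ (∀ C ∈ FF, GenCyc D C) ∧ (∀ C ∈ FF, C ⊆ B) ∧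
      ∀ C ⊆ B \ ⋃₀ FF, ¬ GenCyc D C := by
  obtain ⟨FF, hFF⟩ : ∃ FF : Set (Set E), Maximal (fun FF : Set (Set E) =>
      FF.PairwiseDisjoint id ∧ (∀ C ∈ FF, GenCyc D C) ∧ ∀ C ∈ FF, C ⊆ B) FF := by
    apply zorn_subset
    intro c hc1 hc2
    refine ⟨⋃₀ c, ⟨?_, ?_, ?_⟩, fun s hs => Set.subset_sUnion_of_mem hs⟩
    · rintro A ⟨s, hs, hA⟩ B ⟨t, ht, hB⟩ hne
      rcases hc2.total hs ht with h | h
      · exact (hc1 ht).1 (h hA) hB hne
      · exact (hc1 hs).1 hA (h hB) hne
    · rintro A ⟨s, hs, hA⟩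
      exact (hc1 hs).2.1 A hA
    · rintro A ⟨s, hs, hA⟩
      exact (hc1 hs).2.2 A hA
  obtain ⟨⟨hd, hcyc, hsub⟩, hmax⟩ := hFF
  refine ⟨FF, hd, hcyc, hsub, ?_⟩
  intro C hC hg
  have h1 : C ∉ FF := by
    intro h1
    obtain ⟨e, he⟩ := hg.nonempty
    exact (hC he).2 ⟨C, h1, he⟩
  have h2 := hmax (y := insert C FF) ⟨?_, ?_, ?_⟩ (Set.subset_insert _ _)
  · exact h1 (h2 (Set.mem_insert _ _))
  · apply hd.insert
    intro A hA _
    change Disjoint C A
    rw [Set.disjoint_left]
    intro e he heA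
    exact (hC he).2 ⟨A, hA, heA⟩
  · rintro A (rfl | hA)
    · exact hg
    · exact hcyc A hA
  · rintro A (rfl | hA)
    · exact fun e he => (hC he).1
    · exact hsub A hA

theorem dc_step_out {D : Dig V E} {B : Set E} (hB : LocFin D B) {f : E} (hf : f ∈ B)
    (h0 : imb D B (D.tgt f) = 0) : ∃ g ∈ B, D.src g = D.tgt f := by
  unfold imb at h0
  have h1 : 0 < {e | e ∈ B ∧ D.tgt e = D.tgt f}.ncard :=
    (Set.ncard_pos (hB.tgt _)).2 ⟨f, hf, rfl⟩
  have h2 : 0 < {e | e ∈ B ∧ D.src e = D.tgt f}.ncard := by omega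
  obtain ⟨g, hg, hg'⟩ := (Set.ncard_pos (hB.src _)).1 h2
  exact ⟨g, hg, hg'⟩

theorem dc_step_in {D : Dig V E} {B : Set E} (hB : LocFin D B) {f : E} (hf : f ∈ B)
    (h0 : imb D B (D.src f) = 0) : ∃ g ∈ B, D.tgt g = D.src f := by
  unfold imb at h0
  have h1 : 0 < {e | e ∈ B ∧ D.src e = D.src f}.ncard :=
    (Set.ncard_pos (hB.src _)).2 ⟨f, hf, rfl⟩
  have h2 : 0 < {e | e ∈ B ∧ D.tgt e = D.src f}.ncard := by omega
  obtain ⟨g, hg, hg'⟩ := (Set.ncard_pos (hB.tgt _)).1 h2
  exact ⟨g, hg, hg'⟩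

theorem dc_seq (nxt prv : E → E) (e : E) : ∃ b : ℤ → E, b 0 = e ∧
    (∀ i, 0 ≤ i → b (i + 1) = nxt (b i)) ∧ (∀ i, i ≤ 0 → b (i - 1) = prv (b i)) := by
  refine ⟨fun i => if 0 ≤ i then nxt^[i.toNat] e else prv^[(-i).toNat] e, by simp, ?_, ?_⟩
  · intro i hi
    have h1 : (i + 1).toNat = i.toNat + 1 := by omega
    simp only [hi, if_true, show 0 ≤ i + 1 by omega, h1, iterate_succ_apply']
  · intro i hi
    have h0 : ¬ 0 ≤ i - 1 := by omega
    by_cases h : i = 0
    · subst h
      simp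
    · have h1 : ¬ 0 ≤ i := by omega
      have h2 : (-(i - 1)).toNat = (-i).toNat + 1 := by omega
      simp only [h0, h1, if_false, h2, iterate_succ_apply']

/-- a maximal trail through an edge -/
theorem dc_trail {D : Dig V E} {B : Set E} (hB : LocFin D B) {e : E} (he : e ∈ B) :
    ∃ (b : ℤ → E) (I : Set ℤ), b 0 = e ∧ 0 ∈ I ∧ (∀ i ∈ I, b i ∈ B) ∧
      (∀ i ∈ I, i + 1 ∈ I → D.tgt (b i) = D.src (b (i + 1))) ∧
      (∀ i ∈ I, i + 1 ∉ I → D.tgt (b i) ∈ support (imb D B)) ∧
      (∀ i ∈ I, i - 1 ∉ I → D.src (b i) ∈ support (imb D B)) ∧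
      (∀ i ∈ I, ∀ k ∈ I, ∀ j, i ≤ j → j ≤ k → j ∈ I) := by
  classical
  have h1 : ∀ f : E, ∃ g : E, f ∈ B → D.tgt f ∉ support (imb D B) → g ∈ B ∧ D.src g = D.tgt f := by
    intro f
    by_cases hf : f ∈ B ∧ D.tgt f ∉ support (imb D B)
    · obtain ⟨g, hg, hg'⟩ := dc_step_out hB hf.1 (notMem_support.1 hf.2)
      exact ⟨g, fun _ _ => ⟨hg, hg'⟩⟩
    · exact ⟨f, fun h h' => absurd ⟨h, h'⟩ hf⟩
  have h2 : ∀ f : E, ∃ g : E, f ∈ B → D.src f ∉ support (imb D B) → g ∈ B ∧ D.tgt g = D.src f := by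
    intro f
    by_cases hf : f ∈ B ∧ D.src f ∉ support (imb D B)
    · obtain ⟨g, hg, hg'⟩ := dc_step_in hB hf.1 (notMem_support.1 hf.2)
      exact ⟨g, fun _ _ => ⟨hg, hg'⟩⟩
    · exact ⟨f, fun h h' => absurd ⟨h, h'⟩ hf⟩
  choose nxt hnxt using h1
  choose prv hprv using h2
  obtain ⟨b, hb0, hbn, hbp⟩ := dc_seq nxt prv e
  let S := support (imb D B)
  let I : Set ℤ := {i | (∀ m, 0 ≤ m → m < i → D.tgt (b m) ∉ S) ∧
    ∀ m, i < m → m ≤ 0 → D.src (b m) ∉ S}
  have hconv : ∀ i ∈ I, ∀ k ∈ I, ∀ j, i ≤ j → j ≤ k → j ∈ I := by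
    intro i hi k hk j hij hjk
    exact ⟨fun m hm hmj => hk.1 m hm (by omega), fun m hm hm0 => hi.2 m (by omega) hm0⟩
  have h0 : (0 : ℤ) ∈ I := ⟨fun m hm hm' => by omega, fun m hm hm' => by omega⟩
  have hmem : ∀ i ∈ I, b i ∈ B := by
    intro i
    rcases le_total 0 i with hi | hi
    · induction i, hi using Int.le_induction with
      | base => intro _; rw [hb0]; exact he
      | succ i hi ih =>
        intro hI
        have hI' : i ∈ I := hconv 0 h0 _ hI i hi (by omega)
        rw [hbn i hi]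
        exact (hnxt (b i) (ih hI') (hI.1 i hi (by omega))).1
    · induction i, hi using Int.le_induction_down with
      | base => intro _; rw [hb0]; exact he
      | pred i hi ih =>
        intro hI
        have hI' : i ∈ I := hconv _ hI 0 h0 i (by omega) hi
        rw [hbp i hi]
        exact (hprv (b i) (ih hI') (hI.2 i (by omega) hi)).1
  refine ⟨b, I, hb0, h0, hmem, ?_, ?_, ?_, hconv⟩
  · intro i hi hi1
    rcases le_or_gt 0 i with h | h
    · rw [hbn i h]
      exact (hnxt (b i) (hmem i hi) (hi1.1 i h (by omega))).2.symm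
    · have h3 := hbp (i + 1) (by omega)
      rw [show i + 1 - 1 = i by ring] at h3
      rw [h3]
      exact (hprv (b (i + 1)) (hmem _ hi1) (hi.2 (i + 1) (by omega) (by omega))).2
  · intro i hi hi1
    by_contra hcon
    apply hi1
    refine ⟨fun m hm hmi => ?_, fun m hm hm0 => hi.2 m (by omega) hm0⟩
    rcases eq_or_ne m i with rfl | hne
    · exact hcon
    · exact hi.1 m hm (by omega)
  · intro i hi hi1
    by_contra hcon
    apply hi1
    refine ⟨fun m hm hmi => hi.1 m hm (by omega), fun m hm hm0 => ?_⟩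
    rcases eq_or_ne m i with rfl | hne
    · exact hcon
    · exact hi.2 m (by omega) hm0

theorem dc_acyc {D : Dig V E} {B : Set E} (hno : ∀ C ⊆ B, ¬ GenCyc D C) {b : ℤ → E} {I : Set ℤ}
    (hmem : ∀ i ∈ I, b i ∈ B)
    (hstep : ∀ i ∈ I, i + 1 ∈ I → D.tgt (b i) = D.src (b (i + 1)))
    (hconv : ∀ i ∈ I, ∀ k ∈ I, ∀ j, i ≤ j → j ≤ k → j ∈ I) {i j : ℤ} (hi : i ∈ I) (hj : j ∈ I)
    (hij : i ≤ j) : D.tgt (b j) ≠ D.src (b i) := by
  intro heq
  let n : ℤ := j - i + 1
  have hn : 0 < n := by omega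
  obtain ⟨C, hC, hg⟩ := exists_genCyc_of_walk D (fun k => D.src (b (i + k % n)))
    (fun k => b (i + k % n)) (by
      intro k
      refine ⟨rfl, ?_⟩
      have h1 := Int.emod_nonneg k hn.ne'
      have h2 := Int.emod_lt_of_pos k hn
      have h3 : (k + 1) % n = (k % n + 1) % n := by rw [Int.emod_add_emod]
      show D.tgt (b (i + k % n)) = D.src (b (i + (k + 1) % n))
      rw [h3]
      by_cases hlt : k % n + 1 < n
      · rw [Int.emod_eq_of_lt (by omega) hlt, hstep _ (hconv i hi j hj _ (by omega) (by omega))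
          (hconv i hi j hj _ (by omega) (by omega))]
        congr 2
        ring
      · have h4 : k % n + 1 = n := by omega
        have h5 : i + k % n = j := by omega
        rw [h4, Int.emod_self, h5, heq]
        simp)
  refine hno C ?_ hg
  intro f hf
  obtain ⟨k, rfl⟩ := hC hf
  have h1 := Int.emod_nonneg k hn.ne'
  have h2 := Int.emod_lt_of_pos k hn
  exact hmem _ (hconv i hi j hj _ (by omega) (by omega))

/-- GR-2c. A balanced locally finite set decomposes into generalized cycles. -/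
theorem decomp (D : Dig V E) (B : Set E) (hB : Bal D B) :
    ∃ FF : Set (Set E), FF.PairwiseDisjoint id ∧ (∀ C ∈ FF, GenCyc D C) ∧ ⋃₀ FF = B := by
  obtain ⟨FF, hd, hcyc, hsub, hno⟩ := dc_maxfam D B
  refine ⟨FF, hd, hcyc, ?_⟩
  have hsubU : ⋃₀ FF ⊆ B := Set.sUnion_subset hsub
  have hbU : Bal D (⋃₀ FF) := Bal.sUnion hd (fun C hC => (hcyc C hC).bal) (hB.1.mono hsubU)
  have hb0 : Bal D (B \ ⋃₀ FF) := hB.sdiff hbU hsubU
  apply Set.Subset.antisymm hsubU
  by_contra hcon
  obtain ⟨e, he, heU⟩ := Set.not_subset.1 hcon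
  obtain ⟨b, I, -, h0, hmem, hstep, hup, hdown, hconv⟩ := dc_trail hb0.1 (e := e) ⟨he, heU⟩
  have hS : ∀ v, v ∉ support (imb D (B \ ⋃₀ FF)) := fun v hv => hv (hb0.2 v)
  have hall : ∀ i, i ∈ I := by
    intro i
    rcases le_total 0 i with hi | hi
    · induction i, hi using Int.le_induction with
      | base => exact h0
      | succ i hi ih =>
        by_contra hc
        exact hS _ (hup i ih hc)
    · induction i, hi using Int.le_induction_down with
      | base => exact h0
      | pred i hi ih =>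
        by_contra hc
        exact hS _ (hdown i ih hc)
  obtain ⟨C, hC, hg⟩ := exists_genCyc_of_walk D (fun i => D.src (b i)) b
    (fun i => ⟨rfl, hstep i (hall _) (hall _)⟩)
  refine hno C ?_ hg
  intro f hf
  obtain ⟨i, rfl⟩ := hC hf
  exact hmem i (hall i)

theorem dc_imb_empty {D : Dig V E} {B : Set E} {v : V} (h1 : ∀ f ∈ B, D.src f ≠ v)
    (h2 : ∀ f ∈ B, D.tgt f ≠ v) : imb D B v = 0 := by
  unfold imb
  have e1 : {e | e ∈ B ∧ D.tgt e = v} = ∅ := by
    ext e
    simp only [Set.mem_ofPred_eq, Set.mem_empty_iff_false, iff_false]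
    rintro ⟨h, h'⟩; exact h2 e h h'
  have e2 : {e | e ∈ B ∧ D.src e = v} = ∅ := by
    ext e
    simp only [Set.mem_ofPred_eq, Set.mem_empty_iff_false, iff_false]
    rintro ⟨h, h'⟩; exact h1 e h h'
  rw [e1, e2]; simp

theorem dc_piece_one (D : Dig V E) (B : Set E) (hB : LocFin D B) (e : E) (he : e ∈ B) :
    ∃ B' ⊆ B, e ∈ B' ∧ (support (imb D B')).Finite ∧
      support (imb D B') ⊆ support (imb D B) := by
  classical
  obtain ⟨FF, hd, hcyc, hsub, hno⟩ := dc_maxfam D B
  by_cases heU : e ∈ ⋃₀ FF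
  · obtain ⟨C, hC, heC⟩ := heU
    have h1 : support (imb D C) = ∅ := by
      ext v
      simp [(hcyc C hC).bal.2 v]
    refine ⟨C, hsub C hC, heC, ?_, ?_⟩
    · rw [h1]; exact Set.finite_empty
    · rw [h1]; exact Set.empty_subset _
  have hsubU : ⋃₀ FF ⊆ B := Set.sUnion_subset hsub
  have hbU : Bal D (⋃₀ FF) := Bal.sUnion hd (fun C hC => (hcyc C hC).bal) (hB.mono hsubU)
  have himb : imb D (B \ ⋃₀ FF) = imb D B := by
    ext v
    rw [imb_sdiff hB hsubU, hbU.2, sub_zero]
  have hB0 : LocFin D (B \ ⋃₀ FF) := hB.mono Set.sdiff_subset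
  obtain ⟨b, I, hbe, h0, hmem, hstep, hup, hdown, hconv⟩ := dc_trail hB0 (e := e) ⟨he, heU⟩
  have hac : ∀ i ∈ I, ∀ j ∈ I, i ≤ j → D.tgt (b j) ≠ D.src (b i) := fun i hi j hj hij =>
    dc_acyc hno hmem hstep hconv hi hj hij
  have hsrc : ∀ i ∈ I, ∀ j ∈ I, D.src (b i) = D.src (b j) → i = j := by
    have key : ∀ i ∈ I, ∀ j ∈ I, i < j → D.src (b i) ≠ D.src (b j) := by
      intro i hi j hj hij heq
      have hj1 : j - 1 ∈ I := hconv i hi j hj _ (by omega) (by omega)
      have h1 := hstep (j - 1) hj1 (by rwa [show j - 1 + 1 = j by ring])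
      rw [show j - 1 + 1 = j by ring] at h1
      exact hac i hi (j - 1) hj1 (by omega) (h1.trans heq.symm)
    intro i hi j hj heq
    rcases lt_trichotomy i j with h | h | h
    · exact absurd heq (key i hi j hj h)
    · exact h
    · exact absurd heq.symm (key j hj i hi h)
  have htgt : ∀ i ∈ I, ∀ j ∈ I, D.tgt (b i) = D.tgt (b j) → i = j := by
    have key : ∀ i ∈ I, ∀ j ∈ I, i < j → D.tgt (b i) ≠ D.tgt (b j) := by
      intro i hi j hj hij heq
      have hi1 : i + 1 ∈ I := hconv i hi j hj _ (by omega) (by omega)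
      have h1 := hstep i hi hi1
      exact hac (i + 1) hi1 j hj (by omega) (heq.symm.trans h1)
    intro i hi j hj heq
    rcases lt_trichotomy i j with h | h | h
    · exact absurd heq (key i hi j hj h)
    · exact h
    · exact absurd heq.symm (key j hj i hi h)
  have hsupp : ∀ v, imb D (b '' I) v ≠ 0 → (∃ i ∈ I, i - 1 ∉ I ∧ D.src (b i) = v) ∨
      ∃ i ∈ I, i + 1 ∉ I ∧ D.tgt (b i) = v := by
    intro v hv
    by_cases hs : ∃ i ∈ I, D.src (b i) = v
    · obtain ⟨i, hi, hiv⟩ := hs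
      by_cases hi1 : i - 1 ∈ I
      · exfalso
        apply hv
        have h1 := hstep (i - 1) hi1 (by rwa [show i - 1 + 1 = i by ring])
        rw [show i - 1 + 1 = i by ring] at h1
        unfold imb
        have e1 : {f | f ∈ b '' I ∧ D.tgt f = v} = {b (i - 1)} := by
          ext f
          constructor
          · rintro ⟨⟨j, hj, rfl⟩, hjv⟩
            rw [Set.mem_singleton_iff, htgt j hj (i - 1) hi1 (hjv.trans (hiv.symm.trans h1.symm))]
          · rintro rfl
            exact ⟨⟨i - 1, hi1, rfl⟩, h1.trans hiv⟩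
        have e2 : {f | f ∈ b '' I ∧ D.src f = v} = {b i} := by
          ext f
          constructor
          · rintro ⟨⟨j, hj, rfl⟩, hjv⟩
            rw [Set.mem_singleton_iff, hsrc j hj i hi (hjv.trans hiv.symm)]
          · rintro rfl
            exact ⟨⟨i, hi, rfl⟩, hiv⟩
        rw [e1, e2, Set.ncard_singleton, Set.ncard_singleton]
        simp
      · exact Or.inl ⟨i, hi, hi1, hiv⟩
    · push Not at hs
      by_cases ht : ∃ i ∈ I, D.tgt (b i) = v
      · obtain ⟨i, hi, hiv⟩ := ht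
        refine Or.inr ⟨i, hi, ?_, hiv⟩
        intro hi1
        exact hs (i + 1) hi1 ((hstep i hi hi1).symm.trans hiv)
      · push Not at ht
        exfalso
        apply hv
        apply dc_imb_empty
        · rintro _ ⟨i, hi, rfl⟩
          exact hs i hi
        · rintro _ ⟨i, hi, rfl⟩
          exact ht i hi
  refine ⟨b '' I, ?_, ⟨0, h0, hbe⟩, ?_, ?_⟩
  · rintro _ ⟨i, hi, rfl⟩
    exact (hmem i hi).1
  · have f1 : {v | ∃ i ∈ I, i - 1 ∉ I ∧ D.src (b i) = v}.Subsingleton := by
      rintro v ⟨i, hi, hi1, rfl⟩ w ⟨j, hj, hj1, rfl⟩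
      have : i = j := by
        by_contra hne
        rcases lt_or_gt_of_ne hne with h | h
        · exact hj1 (hconv i hi j hj _ (by omega) (by omega))
        · exact hi1 (hconv j hj i hi _ (by omega) (by omega))
      rw [this]
    have f2 : {v | ∃ i ∈ I, i + 1 ∉ I ∧ D.tgt (b i) = v}.Subsingleton := by
      rintro v ⟨i, hi, hi1, rfl⟩ w ⟨j, hj, hj1, rfl⟩
      have : i = j := by
        by_contra hne
        rcases lt_or_gt_of_ne hne with h | h
        · exact hi1 (hconv i hi j hj _ (by omega) (by omega))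
        · exact hj1 (hconv j hj i hi _ (by omega) (by omega))
      rw [this]
    exact (f1.finite.union f2.finite).subset fun v hv => hsupp v hv
  · intro v hv
    rw [← himb]
    rcases hsupp v hv with ⟨i, hi, hi1, rfl⟩ | ⟨i, hi, hi1, rfl⟩
    · exact hdown i hi hi1
    · exact hup i hi hi1

/-- GR-2d. A finite subset `T` of a locally finite set `B` is contained in a subset `B'` of `B`
with a finitely supported imbalance, supported in the support of the imbalance of `B`. -/
theorem piece (D : Dig V E) (B : Set E) (hB : LocFin D B) (T : Finset E) (hT : (T : Set E) ⊆ B) :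
    ∃ B' ⊆ B, (T : Set E) ⊆ B' ∧ (support (imb D B')).Finite ∧
      support (imb D B') ⊆ support (imb D B) := by
  classical
  induction T using Finset.induction_on with
  | empty =>
    have h1 : support (imb D (∅ : Set E)) = ∅ := by
      ext v
      simp [imb_empty]
    refine ⟨∅, Set.empty_subset _, by simp, ?_, ?_⟩
    · rw [h1]; exact Set.finite_empty
    · rw [h1]; exact Set.empty_subset _
  | insert e T heT ih =>
    have hT' : (T : Set E) ⊆ B := fun f hf => hT (by simp [Finset.mem_coe.1 hf])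
    have heB : e ∈ B := hT (by simp)
    obtain ⟨B1, hB1, hTB1, hfin1, hsup1⟩ := ih hT'
    by_cases he1 : e ∈ B1
    · refine ⟨B1, hB1, ?_, hfin1, hsup1⟩
      rw [Finset.coe_insert]
      exact Set.insert_subset he1 hTB1
    · have hL2 : LocFin D (B \ B1) := hB.mono Set.sdiff_subset
      obtain ⟨B2, hB2, he2, hfin2, hsup2⟩ := dc_piece_one D (B \ B1) hL2 e ⟨heB, he1⟩
      have hdisj : Disjoint B1 B2 := by
        rw [Set.disjoint_left]
        intro f hf hf'
        exact (hB2 hf').2 hf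
      have hsup2' : support (imb D (B \ B1)) ⊆ support (imb D B) := by
        intro v hv
        by_contra hcon
        have h3 : imb D B v = 0 := notMem_support.1 hcon
        have h4 : imb D B1 v = 0 := by
          by_contra h5
          exact hcon (hsup1 h5)
        apply hv
        rw [imb_sdiff hB hB1, h3, h4, sub_zero]
      have himb : ∀ v, imb D (B1 ∪ B2) v = imb D B1 v + imb D B2 v :=
        imb_union (hB.mono hB1) (hL2.mono hB2) hdisj
      have hsub : support (imb D (B1 ∪ B2)) ⊆ support (imb D B1) ∪ support (imb D B2) := by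
        intro v hv
        by_contra hcon
        rw [Set.mem_union, not_or] at hcon
        apply hv
        rw [himb, notMem_support.1 hcon.1, notMem_support.1 hcon.2, add_zero]
      refine ⟨B1 ∪ B2, Set.union_subset hB1 (hB2.trans Set.sdiff_subset), ?_, ?_, ?_⟩
      · rw [Finset.coe_insert]
        exact Set.insert_subset (Or.inr he2) (hTB1.trans Set.subset_union_left)
      · exact (hfin1.union hfin2).subset hsub
      · exact hsub.trans (Set.union_subset hsup1 (hsup2.trans hsup2'))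

end Pool.Agent.Helper24.GR
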