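import Mathlib
import Pool.Agent.Helper24.GR.Defs
import Pool.Agent.Helper24.GR.Basic

set_option autoImplicit false
set_option linter.unusedSectionVars false

/-! GR-1b: transfinite composition of well-ordered sequences of reversals. -/

namespace Pool.Agent.Helper24.GR

open Function Order

universe u v

variable {V : Type u} {E : Type v}

theorem rc_xor_odd (p : Prop) (a b : ℕ) :
    Xor (Xor p (Odd a)) (Odd b) ↔ Xor p (Odd (a + b)) := by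
  rw [Nat.odd_add, ← Nat.not_odd_iff_even]
  unfold Xor
  tauto

section

variable {κ : Type v} [LinearOrder κ] [WellFoundedLT κ] {ι : κ → Type v} [∀ k, LinearOrder (ι k)]
  [∀ k, WellFoundedLT (ι k)] (C : ∀ k, ι k → Set E)

theorem rc_wf : WellFoundedLT (Σₗ k, ι k) := by
  refine ⟨⟨?_⟩⟩
  rintro ⟨k, i⟩
  revert i
  induction k using WellFoundedLT.induction with
  | ind k ihk =>
    intro i
    induction i using WellFoundedLT.induction with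
    | ind i ihi =>
      constructor
      rintro ⟨k', i'⟩ hy
      rcases Sigma.Lex.lt_def.1 hy with h | ⟨h, h'⟩
      · exact ihk k' h i'
      · dsimp only at h
        subst h
        exact ihi i' h'

/-- the concatenated family -/
def rcC (x : Σₗ k, ι k) : Set E := C x.1 x.2

variable {C}

theorem rc_finite (S : κ → Set E) (hfin : ∀ e, {k | e ∈ S k}.Finite)
    (hC : ∀ k e, {i | e ∈ C k i}.Finite) (hCS : ∀ k i, C k i ⊆ S k) (e : E) :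
    {x | e ∈ rcC C x}.Finite := by
  have h1 : (⋃ k ∈ {k | e ∈ S k}, (fun i : ι k => (⟨k, i⟩ : Σₗ k, ι k)) '' {i | e ∈ C k i}).Finite :=
    (hfin e).biUnion fun k _ => (hC k e).image _
  refine h1.subset ?_
  rintro ⟨k, i⟩ hx
  have hx' : e ∈ C k i := hx
  simp only [Set.mem_iUnion]
  exact ⟨k, hCS k i hx', i, hx', rfl⟩

theorem rc_mk_inj (k : κ) : Injective (fun i : ι k => (⟨k, i⟩ : Σₗ k, ι k)) := by
  intro i j h
  have h' : (⟨k, i⟩ : Sigma ι) = ⟨k, j⟩ := h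
  simpa using h'

theorem rc_count_stage (hall : ∀ e, {x | e ∈ rcC C x}.Finite) (e : E) (k : κ) (P : ι k → Prop) :
    {x : Σₗ k, ι k | (x.1 < k ∨ ∃ i, P i ∧ x = ⟨k, i⟩) ∧ e ∈ rcC C x}.ncard =
      {x : Σₗ k, ι k | x.1 < k ∧ e ∈ rcC C x}.ncard + {i | P i ∧ e ∈ C k i}.ncard := by
  have h1 : {x : Σₗ k, ι k | (x.1 < k ∨ ∃ i, P i ∧ x = ⟨k, i⟩) ∧ e ∈ rcC C x} =
      {x : Σₗ k, ι k | x.1 < k ∧ e ∈ rcC C x} ∪
        (fun i : ι k => (⟨k, i⟩ : Σₗ k, ι k)) '' {i | P i ∧ e ∈ C k i} := by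
    ext x
    constructor
    · rintro ⟨h | ⟨i, hi, rfl⟩, hx⟩
      · exact Or.inl ⟨h, hx⟩
      · exact Or.inr ⟨i, ⟨hi, hx⟩, rfl⟩
    · rintro (⟨h, hx⟩ | ⟨i, ⟨hi, hx⟩, rfl⟩)
      · exact ⟨Or.inl h, hx⟩
      · exact ⟨Or.inr ⟨i, hi, rfl⟩, hx⟩
  have hd : Disjoint {x : Σₗ k, ι k | x.1 < k ∧ e ∈ rcC C x}
      ((fun i : ι k => (⟨k, i⟩ : Σₗ k, ι k)) '' {i | P i ∧ e ∈ C k i}) := by
    rw [Set.disjoint_left]
    rintro x ⟨hx, -⟩ ⟨i, -, rfl⟩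
    exact lt_irrefl _ hx
  have hs : {x : Σₗ k, ι k | x.1 < k ∧ e ∈ rcC C x}.Finite := (hall e).subset fun x hx => hx.2
  have ht : ((fun i : ι k => (⟨k, i⟩ : Σₗ k, ι k)) '' {i | P i ∧ e ∈ C k i}).Finite := by
    refine (hall e).subset ?_
    rintro _ ⟨i, ⟨-, hi⟩, rfl⟩
    exact hi
  rw [h1, Set.ncard_union_eq hd hs ht]
  congr 1
  exact Set.ncard_image_of_injective _ (rc_mk_inj k)

theorem rc_count_le (hall : ∀ e, {x | e ∈ rcC C x}.Finite) (e : E) (k : κ) :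
    {x : Σₗ k, ι k | x.1 ≤ k ∧ e ∈ rcC C x}.ncard =
      {x : Σₗ k, ι k | x.1 < k ∧ e ∈ rcC C x}.ncard + {i | e ∈ C k i}.ncard := by
  have h := rc_count_stage hall e k (fun _ => True)
  have h1 : {x : Σₗ k, ι k | (x.1 < k ∨ ∃ i, True ∧ x = ⟨k, i⟩) ∧ e ∈ rcC C x} =
      {x : Σₗ k, ι k | x.1 ≤ k ∧ e ∈ rcC C x} := by
    ext x
    constructor
    · rintro ⟨h | ⟨i, -, rfl⟩, hx⟩
      · exact ⟨h.le, hx⟩
      · exact ⟨le_refl _, hx⟩
    · rintro ⟨h, hx⟩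
      refine ⟨?_, hx⟩
      rcases h.lt_or_eq with h | h
      · exact Or.inl h
      · right
        obtain ⟨k', i⟩ := x
        dsimp only at h
        subst h
        exact ⟨i, trivial, rfl⟩
  rw [h1] at h
  simpa using h

/-- the set of reversed edges after block `j` -/
theorem rc_after (hall : ∀ e, {x | e ∈ rcC C x}.Finite) (O O' : κ → Set E) (Φ : Set E)
    (hO' : ∀ k, O' k = final (O k) (C k)) (e : E) (j : κ)
    (hj : e ∈ O j ↔ Xor (e ∈ Φ) (Odd {x : Σₗ k, ι k | x.1 < j ∧ e ∈ rcC C x}.ncard)) :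
    e ∈ O' j ↔ Xor (e ∈ Φ) (Odd {x : Σₗ k, ι k | x.1 ≤ j ∧ e ∈ rcC C x}.ncard) := by
  rw [rc_count_le hall e j, ← rc_xor_odd, ← hj, hO' j]
  rfl

theorem rc_before (S : κ → Set E) (hfin : ∀ e, {k | e ∈ S k}.Finite)
    (hCS : ∀ k i, C k i ⊆ S k)
    (hall : ∀ e, {x | e ∈ rcC C x}.Finite) (O O' : κ → Set E) (Φ : Set E)
    (hO' : ∀ k, O' k = final (O k) (C k))
    (h0 : ∀ k e, (∀ j < k, e ∉ S j) → (e ∈ O k ↔ e ∈ Φ))
    (h1 : ∀ k e, ∀ j < k, e ∈ S j → (∀ i, j < i → i < k → e ∉ S i) → (e ∈ O k ↔ e ∈ O' j))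
    (e : E) (k : κ) :
    e ∈ O k ↔ Xor (e ∈ Φ) (Odd {x : Σₗ k, ι k | x.1 < k ∧ e ∈ rcC C x}.ncard) := by
  induction k using WellFoundedLT.induction with
  | ind k ih =>
    by_cases hex : ∃ j < k, e ∈ S j
    · have hf : {j | j < k ∧ e ∈ S j}.Finite := (hfin e).subset fun j hj => hj.2
      obtain ⟨j, ⟨hjk, hjS⟩, hmax⟩ := hf.exists_maximal hex
      have hmax' : ∀ i, j < i → i < k → e ∉ S i := by
        intro i hji hik hiS
        exact absurd (hmax (show i ∈ {j | j < k ∧ e ∈ S j} from ⟨hik, hiS⟩) hji.le)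
          (not_le.2 hji)
      rw [h1 k e j hjk hjS hmax', rc_after hall O O' Φ hO' e j (ih j hjk)]
      have h2 : {x : Σₗ k, ι k | x.1 ≤ j ∧ e ∈ rcC C x} =
          {x : Σₗ k, ι k | x.1 < k ∧ e ∈ rcC C x} := by
        ext x
        constructor
        · rintro ⟨hx, hxe⟩
          exact ⟨lt_of_le_of_lt hx hjk, hxe⟩
        · rintro ⟨hx, hxe⟩
          refine ⟨?_, hxe⟩
          by_contra hcon
          exact hmax' x.1 (not_le.1 hcon) hx (hCS x.1 x.2 hxe)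
      rw [h2]
    · push Not at hex
      rw [h0 k e hex]
      have h2 : {x : Σₗ k, ι k | x.1 < k ∧ e ∈ rcC C x} = ∅ := by
        ext x
        simp only [Set.mem_ofPred_eq, Set.mem_empty_iff_false, iff_false]
        rintro ⟨hx, hxe⟩
        exact hex x.1 hx (hCS x.1 x.2 hxe)
      rw [h2, Set.ncard_empty]
      simp [Xor]

theorem rc_end (S : κ → Set E) (hfin : ∀ e, {k | e ∈ S k}.Finite)
    (hCS : ∀ k i, C k i ⊆ S k)
    (hall : ∀ e, {x | e ∈ rcC C x}.Finite) (O O' : κ → Set E) (Φ Ψ : Set E)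
    (hO' : ∀ k, O' k = final (O k) (C k))
    (h0 : ∀ k e, (∀ j < k, e ∉ S j) → (e ∈ O k ↔ e ∈ Φ))
    (h1 : ∀ k e, ∀ j < k, e ∈ S j → (∀ i, j < i → i < k → e ∉ S i) → (e ∈ O k ↔ e ∈ O' j))
    (h2 : ∀ e, (∀ j, e ∉ S j) → (e ∈ Ψ ↔ e ∈ Φ))
    (h3 : ∀ e, ∀ j, e ∈ S j → (∀ i, j < i → e ∉ S i) → (e ∈ Ψ ↔ e ∈ O' j))
    (e : E) :
    e ∈ Ψ ↔ Xor (e ∈ Φ) (Odd {x : Σₗ k, ι k | e ∈ rcC C x}.ncard) := by
  by_cases hex : ∃ j, e ∈ S j
  · obtain ⟨j, hjS, hmax⟩ := (hfin e).exists_maximal hex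
    have hmax' : ∀ i, j < i → e ∉ S i := by
      intro i hji hiS
      exact absurd (hmax (show i ∈ {k | e ∈ S k} from hiS) hji.le) (not_le.2 hji)
    rw [h3 e j hjS hmax', rc_after hall O O' Φ hO' e j
      (rc_before S hfin hCS hall O O' Φ hO' h0 h1 e j)]
    have h4 : {x : Σₗ k, ι k | x.1 ≤ j ∧ e ∈ rcC C x} = {x : Σₗ k, ι k | e ∈ rcC C x} := by
      ext x
      constructor
      · rintro ⟨hx, hxe⟩
        exact hxe
      · intro hxe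
        refine ⟨?_, hxe⟩
        by_contra hcon
        exact hmax' x.1 (not_le.1 hcon) (hCS x.1 x.2 hxe)
    rw [h4]
  · push Not at hex
    rw [h2 e hex]
    have h4 : {x : Σₗ k, ι k | e ∈ rcC C x} = ∅ := by
      ext x
      simp only [Set.mem_ofPred_eq, Set.mem_empty_iff_false, iff_false]
      intro hxe
      exact hex x.1 (hCS x.1 x.2 hxe)
    rw [h4, Set.ncard_empty]
    simp [Xor]

theorem rc_stage (S : κ → Set E) (hfin : ∀ e, {k | e ∈ S k}.Finite)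
    (hCS : ∀ k i, C k i ⊆ S k)
    (hall : ∀ e, {x | e ∈ rcC C x}.Finite) (O O' : κ → Set E) (Φ : Set E)
    (hO' : ∀ k, O' k = final (O k) (C k))
    (h0 : ∀ k e, (∀ j < k, e ∉ S j) → (e ∈ O k ↔ e ∈ Φ))
    (h1 : ∀ k e, ∀ j < k, e ∈ S j → (∀ i, j < i → i < k → e ∉ S i) → (e ∈ O k ↔ e ∈ O' j))
    (k : κ) (i : ι k) :
    stage (O k) (C k) i = stage Φ (rcC C) (⟨k, i⟩ : Σₗ k, ι k) := by
  ext e
  show Xor (e ∈ O k) (Odd {j | j < i ∧ e ∈ C k j}.ncard) ↔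
    Xor (e ∈ Φ) (Odd {x : Σₗ k, ι k | x < ⟨k, i⟩ ∧ e ∈ rcC C x}.ncard)
  rw [rc_before S hfin hCS hall O O' Φ hO' h0 h1 e k, rc_xor_odd]
  have h2 : {x : Σₗ k, ι k | x < ⟨k, i⟩ ∧ e ∈ rcC C x} =
      {x : Σₗ k, ι k | (x.1 < k ∨ ∃ j, j < i ∧ x = ⟨k, j⟩) ∧ e ∈ rcC C x} := by
    ext x
    obtain ⟨k', i'⟩ := x
    constructor
    · rintro ⟨hx, hxe⟩
      refine ⟨?_, hxe⟩
      rcases Sigma.Lex.lt_def.1 hx with h | ⟨h, h'⟩
      · exact Or.inl h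
      · dsimp only at h
        subst h
        exact Or.inr ⟨i', h', rfl⟩
    · rintro ⟨hx, hxe⟩
      refine ⟨?_, hxe⟩
      rcases hx with h | ⟨j, hj, hx⟩
      · exact Sigma.Lex.lt_def.2 (Or.inl h)
      · rw [hx]
        exact Sigma.Lex.lt_def.2 (Or.inr ⟨rfl, hj⟩)
  rw [h2, rc_count_stage hall e k (fun j => j < i)]

end

/-- GR-1b. Transfinite composition: `S k` is the set of the edges which may be used in block `k`,
`O k` and `O' k` are the sets of reversed edges before and after block `k`. -/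
theorem reach_comp (D : Dig V E) {κ : Type v} [LinearOrder κ] [WellFoundedLT κ]
    (S O O' : κ → Set E) (Φ Ψ : Set E)
    (hfin : ∀ e, {k | e ∈ S k}.Finite)
    (h : ∀ k, Reach D (S k) (O k) (O' k))
    (h0 : ∀ k e, (∀ j < k, e ∉ S j) → (e ∈ O k ↔ e ∈ Φ))
    (h1 : ∀ k e, ∀ j < k, e ∈ S j → (∀ i, j < i → i < k → e ∉ S i) → (e ∈ O k ↔ e ∈ O' j))
    (h2 : ∀ e, (∀ j, e ∉ S j) → (e ∈ Ψ ↔ e ∈ Φ))
    (h3 : ∀ e, ∀ j, e ∈ S j → (∀ i, j < i → e ∉ S i) → (e ∈ Ψ ↔ e ∈ O' j)) :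
    Reach D (⋃ k, S k) Φ Ψ := by
  choose ι lo wf C hC hCS hgen hO' using h
  let _ : ∀ k, LinearOrder (ι k) := lo
  have _ : ∀ k, WellFoundedLT (ι k) := wf
  have hall := rc_finite S hfin hC hCS
  refine ⟨Σₗ k, ι k, inferInstance, rc_wf, rcC C, hall, ?_, ?_, ?_⟩
  · rintro ⟨k, i⟩ e he
    exact Set.mem_iUnion.2 ⟨k, hCS k i he⟩
  · rintro ⟨k, i⟩
    have h5 := rc_stage S hfin hCS hall O O' Φ hO' h0 h1 k i
    have h6 := hgen k i
    rw [h5] at h6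
    exact h6
  · ext e
    exact rc_end S hfin hCS hall O O' Φ Ψ hO' h0 h1 h2 h3 e

end Pool.Agent.Helper24.GR
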