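import Mathlib
import Pool.Agent.Helper24.GR.Defs
import Pool.Agent.Helper24.GR.Basic

set_option autoImplicit false

/-! GR-5: locally finite sets have finitely-unimprovable cuts. -/

namespace Pool.Agent.Helper24.GR

open Function Order Filter

universe u v

variable {V : Type u} {E : Type v}

open Classical in
/-- number of monochromatic edges of `J ∩ B` -/
noncomputable def cu_mono (D : Dig V E) (B : Set E) (J : Finset E) (c : V → Bool) : ℕ :=
  (J.filter (fun e => e ∈ B ∧ c (D.src e) = c (D.tgt e))).card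

open Classical in
theorem cu_finite (D : Dig V E) (B : Set E) (J : Finset E) (c : V → Bool)
    (hc : ∀ c', cu_mono D B J c ≤ cu_mono D B J c') (X : Finset V) :
    (J.filter (fun e => e ∈ B ∧ Xor (D.src e ∈ X) (D.tgt e ∈ X) ∧
      c (D.src e) = c (D.tgt e))).card ≤
    (J.filter (fun e => e ∈ B ∧ Xor (D.src e ∈ X) (D.tgt e ∈ X) ∧
      c (D.src e) ≠ c (D.tgt e))).card := by
  let c' : V → Bool := fun v => if v ∈ X then !(c v) else c v
  have h1 := hc c'
  unfold cu_mono at h1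
  -- common part
  let K : Finset E := J.filter (fun e => e ∈ B ∧ ¬ Xor (D.src e ∈ X) (D.tgt e ∈ X) ∧
      c (D.src e) = c (D.tgt e))
  have e1 : J.filter (fun e => e ∈ B ∧ c (D.src e) = c (D.tgt e)) =
      K ∪ J.filter (fun e => e ∈ B ∧ Xor (D.src e ∈ X) (D.tgt e ∈ X) ∧
      c (D.src e) = c (D.tgt e)) := by
    ext e
    simp only [Finset.mem_filter, Finset.mem_union, K]
    by_cases hx : Xor (D.src e ∈ X) (D.tgt e ∈ X) <;> simp [hx]
  have d1 : Disjoint K (J.filter (fun e => e ∈ B ∧ Xor (D.src e ∈ X) (D.tgt e ∈ X) ∧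
      c (D.src e) = c (D.tgt e))) := by
    rw [Finset.disjoint_left]
    intro e he he'
    simp only [Finset.mem_filter, K] at he he'
    tauto
  have e2 : J.filter (fun e => e ∈ B ∧ c' (D.src e) = c' (D.tgt e)) =
      K ∪ J.filter (fun e => e ∈ B ∧ Xor (D.src e ∈ X) (D.tgt e ∈ X) ∧
      c (D.src e) ≠ c (D.tgt e)) := by
    ext e
    simp only [Finset.mem_filter, Finset.mem_union, K, c']
    by_cases hs : D.src e ∈ X <;> by_cases ht : D.tgt e ∈ X <;>
      cases h3 : c (D.src e) <;> cases h4 : c (D.tgt e) <;> simp [hs, ht, Xor]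
  have d2 : Disjoint K (J.filter (fun e => e ∈ B ∧ Xor (D.src e ∈ X) (D.tgt e ∈ X) ∧
      c (D.src e) ≠ c (D.tgt e))) := by
    rw [Finset.disjoint_left]
    intro e he he'
    simp only [Finset.mem_filter, K] at he he'
    tauto
  rw [e1, e2, Finset.card_union_of_disjoint d1, Finset.card_union_of_disjoint d2] at h1
  omega

theorem exists_maxcut (D : Dig V E) (B : Set E) (hB : LocFin D B) :
    ∃ c : V → Bool, ∀ X : Finset V,
      {e | e ∈ B ∧ Xor (D.src e ∈ X) (D.tgt e ∈ X) ∧ c (D.src e) = c (D.tgt e)}.ncard ≤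
      {e | e ∈ B ∧ Xor (D.src e ∈ X) (D.tgt e ∈ X) ∧ c (D.src e) ≠ c (D.tgt e)}.ncard := by
  classical
  have h1 : ∀ J : Finset E, ∃ c : V → Bool, ∀ c', cu_mono D B J c ≤ cu_mono D B J c' := by
    intro J
    obtain ⟨_, ⟨c, rfl⟩, hc⟩ := (wellFounded_lt (α := ℕ)).has_min
      (Set.range (cu_mono D B J)) ⟨_, fun _ => true, rfl⟩
    exact ⟨c, fun c' => not_lt.1 (hc _ ⟨c', rfl⟩)⟩
  choose cJ hcJ using h1
  let U : Ultrafilter (Finset E) := Ultrafilter.of atTop
  have hU : (U : Filter (Finset E)) ≤ atTop := Ultrafilter.of_le atTop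
  have h2 : ∀ v, ∃ b : Bool, ∀ᶠ J in (U : Filter (Finset E)), cJ J v = b := by
    intro v
    rcases U.em (fun J => cJ J v = true) with h | h
    · exact ⟨true, h⟩
    · refine ⟨false, h.mono fun J hJ => ?_⟩
      simpa using hJ
  choose c hc using h2
  refine ⟨c, fun X => ?_⟩
  have hT : {e | e ∈ B ∧ (D.src e ∈ X ∨ D.tgt e ∈ X)}.Finite := by
    have h3 : (⋃ v ∈ (X : Set V), {e | e ∈ B ∧ (D.src e = v ∨ D.tgt e = v)}).Finite :=
      X.finite_toSet.biUnion fun v _ => hB v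
    refine h3.subset ?_
    rintro e ⟨he, h | h⟩
    · simp only [Set.mem_iUnion]
      exact ⟨D.src e, h, he, Or.inl rfl⟩
    · simp only [Set.mem_iUnion]
      exact ⟨D.tgt e, h, he, Or.inr rfl⟩
  have h4 : ∀ᶠ J in (U : Filter (Finset E)), hT.toFinset ⊆ J := hU (eventually_ge_atTop _)
  have h5 : ∀ᶠ J in (U : Filter (Finset E)), ∀ e ∈ hT.toFinset,
      cJ J (D.src e) = c (D.src e) ∧ cJ J (D.tgt e) = c (D.tgt e) := by
    rw [Finset.eventually_all]
    intro e _
    exact (hc _).and (hc _)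
  obtain ⟨J, hJ1, hJ2⟩ := (h4.and h5).exists
  have h6 := cu_finite D B J (cJ J) (hcJ J) X
  have memT : ∀ e, e ∈ B → Xor (D.src e ∈ X) (D.tgt e ∈ X) → e ∈ hT.toFinset := by
    intro e he hx
    rw [Set.Finite.mem_toFinset]
    refine ⟨he, ?_⟩
    rcases hx with h | h
    · exact Or.inl h.1
    · exact Or.inr h.1
  have s1 : {e | e ∈ B ∧ Xor (D.src e ∈ X) (D.tgt e ∈ X) ∧ c (D.src e) = c (D.tgt e)} =
      ((J.filter (fun e => e ∈ B ∧ Xor (D.src e ∈ X) (D.tgt e ∈ X) ∧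
      cJ J (D.src e) = cJ J (D.tgt e)) : Finset E) : Set E) := by
    ext e
    simp only [Set.mem_ofPred_eq, Finset.coe_filter]
    constructor
    · rintro ⟨he, hx, hcol⟩
      have hm := memT e he hx
      obtain ⟨q1, q2⟩ := hJ2 e hm
      exact ⟨hJ1 hm, he, hx, by rw [q1, q2]; exact hcol⟩
    · rintro ⟨-, he, hx, hcol⟩
      have hm := memT e he hx
      obtain ⟨q1, q2⟩ := hJ2 e hm
      rw [q1, q2] at hcol
      exact ⟨he, hx, hcol⟩
  have s2 : {e | e ∈ B ∧ Xor (D.src e ∈ X) (D.tgt e ∈ X) ∧ c (D.src e) ≠ c (D.tgt e)} =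
      ((J.filter (fun e => e ∈ B ∧ Xor (D.src e ∈ X) (D.tgt e ∈ X) ∧
      cJ J (D.src e) ≠ cJ J (D.tgt e)) : Finset E) : Set E) := by
    ext e
    simp only [Set.mem_ofPred_eq, Finset.coe_filter]
    constructor
    · rintro ⟨he, hx, hcol⟩
      have hm := memT e he hx
      obtain ⟨q1, q2⟩ := hJ2 e hm
      exact ⟨hJ1 hm, he, hx, by rw [q1, q2]; exact hcol⟩
    · rintro ⟨-, he, hx, hcol⟩
      have hm := memT e he hx
      obtain ⟨q1, q2⟩ := hJ2 e hm
      rw [q1, q2] at hcol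
      exact ⟨he, hx, hcol⟩
  rw [s1, s2, Set.ncard_coe_finset, Set.ncard_coe_finset]
  exact h6

end Pool.Agent.Helper24.GR
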